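import Pool.Agent.Helper35.HG.StA

set_option autoImplicit false

/-!
Module GBD of project HG (MP_925021_gt): Gram matrix of the traceless parts.
-/

namespace Helper36.HG

open Helper35.HG Helper35.HC

section

variable {n : ℕ}

theorem mt_lin {m : ℕ} (a : Fin m → ℝ) (H : Fin m → Fin n → Fin n → ℝ) :
    Helper35.HC.mt (lin a H) = ∑ α, a α * Helper35.HC.mt (H α) := by
  simp only [Helper35.HC.mt, lin]
  rw [Finset.sum_comm, Finset.sum_div]
  refine Finset.sum_congr rfl fun α _ => ?_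
  rw [← Finset.mul_sum, mul_div_assoc]

theorem tl_lin {m : ℕ} (a : Fin m → ℝ) (H : Fin m → Fin n → Fin n → ℝ) (i j : Fin n) :
    tl (lin a H) i j = ∑ α, a α * tl (H α) i j := by
  simp only [tl, mt_lin, mul_sub, Finset.sum_sub_distrib]
  congr 1
  by_cases h : i = j
  · simp only [if_pos h]
  · simp only [if_neg h, mul_zero, Finset.sum_const_zero]

theorem ip0_lin {m : ℕ} (X : Fin n → Fin n → ℝ) (a : Fin m → ℝ) (H : Fin m → Fin n → Fin n → ℝ) :
    ip0 X (lin a H) = ∑ α, a α * ip0 X (H α) := by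
  simp only [ip0, tl_lin, Finset.mul_sum]
  rw [Finset.sum_comm' (t' := Finset.univ) (s' := fun _ => Finset.univ) (by simp)]
  rw [Finset.sum_comm' (t' := Finset.univ) (s' := fun _ => Finset.univ) (by simp)]
  have h1 : ∑ x, ∑ y, ∑ α, tl X x y * (a α * tl (H α) x y) =
      ∑ α, ∑ x, ∑ y, a α * (tl X x y * tl (H α) x y) := by
    rw [Finset.sum_congr rfl fun x _ => Finset.sum_comm, Finset.sum_comm]
    refine Finset.sum_congr rfl fun α _ => Finset.sum_congr rfl fun x _ =>
      Finset.sum_congr rfl fun y _ => ?_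
    ring
  exact h1

theorem ip0_cs (X Y : Fin n → Fin n → ℝ) : ip0 X Y ^ 2 ≤ ip0 X X * ip0 Y Y := by
  simp only [ip0, ← Finset.sum_product']
  have h := Finset.sum_mul_sq_le_sq_mul_sq (Finset.univ ×ˢ Finset.univ : Finset (Fin n × Fin n))
    (fun p => tl X p.1 p.2) (fun p => tl Y p.1 p.2)
  simp only [pow_two] at h ⊢
  exact h

theorem ip0_nonneg (X : Fin n → Fin n → ℝ) : 0 ≤ ip0 X X :=
  Finset.sum_nonneg fun _ _ => Finset.sum_nonneg fun _ _ => mul_self_nonneg _

end

theorem hGBD : StGBD := by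
  intro n m H Lam hL
  rw [Finset.mul_sum]
  refine Finset.sum_le_sum fun α _ => ?_
  obtain ⟨s, hs⟩ : ∃ s, s = ∑ β, ip0 (H α) (H β) ^ 2 := ⟨_, rfl⟩
  rw [← hs]
  have hs0 : 0 ≤ s := by
    rw [hs]
    exact Finset.sum_nonneg fun _ _ => sq_nonneg _
  rcases eq_or_lt_of_le hs0 with h0 | hpos
  · rw [← h0]
    have h1 := hL (fun β => if β = α then 1 else 0) (by simp)
    exact mul_nonneg ((ip0_nonneg _).trans h1) (ip0_nonneg _)
  · have hq : 0 < Real.sqrt s := Real.sqrt_pos.2 hpos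
    have hqq : Real.sqrt s ^ 2 = s := Real.sq_sqrt hs0
    have h1 : ∑ β, (ip0 (H α) (H β) / Real.sqrt s) ^ 2 = 1 := by
      simp only [div_pow]
      rw [← Finset.sum_div, ← hs, hqq]
      exact div_self hpos.ne'
    have h2 := hL _ h1
    have h3 := ip0_cs (H α) (lin (fun β => ip0 (H α) (H β) / Real.sqrt s) H)
    have h4 : ip0 (H α) (lin (fun β => ip0 (H α) (H β) / Real.sqrt s) H) = s / Real.sqrt s := by
      rw [ip0_lin, hs, Finset.sum_div]
      refine Finset.sum_congr rfl fun β _ => ?_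
      ring
    rw [h4, div_pow, hqq] at h3
    have h5 : s ^ 2 / s = s := by
      field_simp
    rw [h5] at h3
    calc s ≤ _ := h3
      _ ≤ ip0 (H α) (H α) * Lam := mul_le_mul_of_nonneg_left h2 (ip0_nonneg _)
      _ = _ := mul_comm _ _

end Helper36.HG
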