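import Pool.Agent.Helper35.HG.StE

/-!
# Project HG (MP_925021_gt), module RG2: simple inequalities
-/

set_option autoImplicit false

namespace Helper36.HG

open Helper35.HG Helper35.HC Helper35.HSF Helper35.MS Helper35.PI Helper35.PI2 Helper32.CL

theorem sn_bd (n : ℕ) (hn : 16 ≤ n) : 0 < sn n ∧ sn n ≤ 3 / 64 := by
  have h1 : (16 : ℝ) ≤ n := by exact_mod_cast hn
  have h2 : (256 : ℝ) ≤ (n : ℝ) ^ 2 := by nlinarith
  refine ⟨by unfold sn; positivity, ?_⟩
  unfold sn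
  rw [div_le_iff₀ (by linarith)]
  linarith

theorem hh_bd (X : ℝ) (hX : 0 ≤ X) : 0 < hh X ∧ hh X ≤ 1 ∧ 13 / 4 * X * hh X = 1 - hh X := by
  have h1 : 0 < 1 + 13 / 4 * X := by linarith
  refine ⟨by unfold hh; positivity, ?_, ?_⟩
  · unfold hh
    rw [div_le_one h1]
    linarith
  · unfold hh
    field_simp
    ring

theorem rt_bd (s X : ℝ) (hs : 0 ≤ s) (hX : 0 ≤ X) :
    1 ≤ Real.sqrt (1 + s * X) ∧ Real.sqrt (1 + s * X) ^ 2 = 1 + s * X := by
  have h := mul_nonneg hs hX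
  refine ⟨?_, Real.sq_sqrt (by linarith)⟩
  rw [Real.one_le_sqrt]
  linarith

theorem hRG2 : StRG2 := by
  intro n hn
  obtain ⟨hs0, hs1⟩ := sn_bd n hn
  have hJ0 : (pP n).J 0 = 433 / 1000 := by
    show Jf 0 - 3 / 5 * (Real.sqrt (1 + sn n * 0) - 1) = 433 / 1000
    unfold Jf hh
    norm_num
  refine ⟨hJ0, ?_, ?_, ?_⟩
  · intro X x hX hXx
    have hx : 0 ≤ x := hX.trans hXx
    obtain ⟨hW1, hW2⟩ := rt_bd (sn n) X hs0.le hX
    obtain ⟨hw1, hw2⟩ := rt_bd (sn n) x hs0.le hx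
    obtain ⟨hh0, hh1, _⟩ := hh_bd X hX
    have hWw : Real.sqrt (1 + sn n * X) ≤ Real.sqrt (1 + sn n * x) :=
      Real.sqrt_le_sqrt (by nlinarith)
    rw [hJ0]
    show 0 < Jf X - 3 / 5 * (Real.sqrt (1 + sn n * X) - 1)
        + 3 / 10 * (Real.sqrt (1 + sn n * x) - 1) ∧
      Jf X - 3 / 5 * (Real.sqrt (1 + sn n * X) - 1) + 3 / 10 * (Real.sqrt (1 + sn n * x) - 1)
        ≤ 433 / 1000 + 23 / 100 * x
    set s := sn n with hs
    set W := Real.sqrt (1 + s * X) with hW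
    set w := Real.sqrt (1 + s * x) with hw
    have hWX : W - 1 ≤ s * X / 2 := by nlinarith [mul_nonneg (sub_nonneg.mpr hW1) (sub_nonneg.mpr hW1)]
    have hwW : w - W ≤ s * (x - X) / 2 := by
      have h1 : (w - W) * (w + W) = s * (x - X) := by
        have : (w - W) * (w + W) = w ^ 2 - W ^ 2 := by ring
        rw [this, hw2, hW2]
        ring
      nlinarith [mul_nonneg (sub_nonneg.mpr hWw) (by linarith : 0 ≤ w + W - 2)]
    have hsX : s * X ≤ 3 / 64 * X := mul_le_mul_of_nonneg_right hs1 hX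
    have hsx : s * (x - X) ≤ 3 / 64 * (x - X) := mul_le_mul_of_nonneg_right hs1 (by linarith)
    unfold Jf
    constructor
    · linarith
    · linarith
  · intro η hη
    have hC : 0 < 3 / 10 * sn n / η := by positivity
    refine ⟨(3 / 10 * sn n / η) ^ 2 / sn n, fun x hx => ?_⟩
    have hx0 : 0 ≤ x := le_trans (by positivity) hx
    obtain ⟨hw1, hw2⟩ := rt_bd (sn n) x hs0.le hx0
    show 3 / 10 * (Real.sqrt (1 + sn n * x) - 1) ≤ η * x
    set s := sn n with hs
    set w := Real.sqrt (1 + s * x) with hw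
    have h1 : (3 / 10 * s / η) ^ 2 ≤ w ^ 2 := by
      rw [div_le_iff₀ hs0] at hx
      rw [hw2]
      linarith
    have h2 : 3 / 10 * s / η ≤ w := by
      apply (sq_le_sq₀ hC.le (by linarith)).mp h1
    have h3 : (w - 1) * (3 / 10 * s / η) ≤ s * x := by
      have h4 : (w - 1) * (w + 1) = s * x := by
        have : (w - 1) * (w + 1) = w ^ 2 - 1 := by ring
        rw [this, hw2]
        ring
      rw [← h4]
      exact mul_le_mul_of_nonneg_left (by linarith) (by linarith)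
    have h5 : (w - 1) * (3 / 10 * s / η) * η = (w - 1) * (3 / 10 * s) := by
      field_simp
    have h6 : (w - 1) * (3 / 10 * s) ≤ s * x * η := by
      rw [← h5]
      exact mul_le_mul_of_nonneg_right h3 hη.le
    have h7 : s * (3 / 10 * (w - 1)) ≤ s * (η * x) := by linarith
    exact le_of_mul_le_mul_left h7 hs0
  · intro X hX
    obtain ⟨hW1, hW2⟩ := rt_bd (sn n) X hs0.le hX
    obtain ⟨hh0, hh1, hh2⟩ := hh_bd X hX
    show 23 / 100 - 17 / 100 * (13 / 4) * hh X ^ 2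
        - 3 / 5 * (sn n / (2 * Real.sqrt (1 + sn n * X)))
        + 2 * X * (2 * (17 / 100) * (13 / 4) ^ 2 * hh X ^ 3
          + 3 / 5 * (sn n ^ 2 / (4 * Real.sqrt (1 + sn n * X) ^ 3)))
      ≤ 2 * (((n : ℝ) - 1) / (n + 2)) * (1 / 4)
    set s := sn n with hs
    set W := Real.sqrt (1 + s * X) with hW
    set h := hh X with hh'
    have hWp : 0 < W := by linarith
    have e1 : 2 * X * (2 * (17 / 100) * (13 / 4) ^ 2 * h ^ 3)
        = 4 * (17 / 100) * (13 / 4) * h ^ 2 * (1 - h) := by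
      rw [← hh2]
      ring
    have e2 : 2 * X * (3 / 5 * (s ^ 2 / (4 * W ^ 3)))
        = 3 / 10 * s / W - 3 / 10 * s / W ^ 3 := by
      have h3 : s * X = W ^ 2 - 1 := by rw [hW2]; ring
      have h4 : 2 * X * (3 / 5 * (s ^ 2 / (4 * W ^ 3))) = 3 / 10 * s * (s * X) / W ^ 3 := by
        field_simp
        ring
      rw [h4, h3]
      field_simp
    have e3 : 3 / 5 * (s / (2 * W)) = 3 / 10 * s / W := by
      field_simp
      ring
    have e4 : 0 ≤ 3 / 10 * s / W ^ 3 := by positivity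
    have e5 : 3 * h ^ 2 - 4 * h ^ 3 ≤ 1 / 4 := by
      nlinarith [mul_nonneg (sq_nonneg (2 * h - 1)) (by linarith : 0 ≤ 4 * h + 1)]
    have e6 : (5 : ℝ) / 6 ≤ ((n : ℝ) - 1) / (n + 2) := by
      have h1 : (16 : ℝ) ≤ n := by exact_mod_cast hn
      rw [div_le_div_iff₀ (by norm_num) (by linarith)]
      linarith
    rw [mul_add, e1, e2, e3]
    nlinarith

end Helper36.HG
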